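import Pool.Agent.X143.SD.Stm

/-! Part `SD_CON`. -/

open Finset

namespace Pool.Agent.X56.SD

open Pool.Agent.X143.SD

theorem phi_nonneg (n d c : ℕ) : 0 ≤ phi n d c := by
  unfold phi; positivity

theorem phi_le_one {n d c : ℕ} (hd : d ≤ n) (hc : c ≤ n) : phi n d c ≤ 1 := by
  unfold phi
  have h0 : (0 : ℝ) < (n.descFactorial d : ℝ) := by
    exact_mod_cast Nat.descFactorial_pos.mpr hd
  rw [div_le_one h0]
  exact_mod_cast Nat.descFactorial_le d hc

theorem phi_self {n d : ℕ} (hd : d ≤ n) : phi n d n = 1 := by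
  unfold phi
  have h0 : (n.descFactorial d : ℝ) ≠ 0 := by
    have := Nat.descFactorial_pos.mpr hd
    exact_mod_cast this.ne'
  exact div_self h0

theorem prod_sub_pow (x : ℝ) (hx0 : 0 ≤ x) (hx1 : x ≤ 1) (u : ℕ → ℝ) (D : ℝ) :
    ∀ d : ℕ, (∀ j < d, 0 ≤ u j ∧ u j ≤ 1 ∧ |u j - x| ≤ D) →
      |∏ j ∈ range d, u j - x ^ d| ≤ d * D := by
  intro d
  induction d with
  | zero => intro _; simp
  | succ d ih =>
    intro h
    have ih' := ih (fun j hj => h j (by omega))
    obtain ⟨u0, u1, u2⟩ := h d (by omega)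
    rw [prod_range_succ, pow_succ]
    have e : (∏ j ∈ range d, u j) * u d - x ^ d * x
        = (∏ j ∈ range d, u j - x ^ d) * u d + x ^ d * (u d - x) := by ring
    rw [e]
    have hxd0 : 0 ≤ x ^ d := pow_nonneg hx0 d
    have hxd1 : x ^ d ≤ 1 := pow_le_one₀ hx0 hx1
    calc |(∏ j ∈ range d, u j - x ^ d) * u d + x ^ d * (u d - x)|
        ≤ |(∏ j ∈ range d, u j - x ^ d) * u d| + |x ^ d * (u d - x)| := abs_add_le _ _
      _ = |∏ j ∈ range d, u j - x ^ d| * u d + x ^ d * |u d - x| := by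
          rw [abs_mul, abs_mul, abs_of_nonneg u0, abs_of_nonneg hxd0]
      _ ≤ |∏ j ∈ range d, u j - x ^ d| * 1 + 1 * |u d - x| :=
          add_le_add (mul_le_mul_of_nonneg_left u1 (abs_nonneg _))
            (mul_le_mul_of_nonneg_right hxd1 (abs_nonneg _))
      _ ≤ d * D + D := by rw [mul_one, one_mul]; exact add_le_add ih' u2
      _ = ((d + 1 : ℕ) : ℝ) * D := by push_cast; ring

theorem phi_pow {n d c : ℕ} (hd1 : 1 ≤ d) (hd : 2 * d ≤ n) (hc : c ≤ n) :
    |phi n d c - ((c : ℝ) / n) ^ d| ≤ d * (2 * d / n) := by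
  have hn : (0 : ℝ) < n := by
    have : 0 < n := by omega
    exact_mod_cast this
  have hprod : phi n d c = ∏ j ∈ range d, (((c - j : ℕ) : ℝ) / ((n - j : ℕ) : ℝ)) := by
    unfold phi
    rw [Nat.descFactorial_eq_prod_range, Nat.descFactorial_eq_prod_range, prod_div_distrib]
    push_cast
    rfl
  rw [hprod]
  apply prod_sub_pow
  · positivity
  · rw [div_le_one hn]; exact_mod_cast hc
  · intro j hj
    have hnj : (0 : ℝ) < ((n - j : ℕ) : ℝ) := by
      have : 0 < n - j := by omega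
      exact_mod_cast this
    have hnjle : (n : ℝ) / 2 ≤ ((n - j : ℕ) : ℝ) := by
      have : n ≤ 2 * (n - j) := by omega
      have : (n : ℝ) ≤ 2 * ((n - j : ℕ) : ℝ) := by exact_mod_cast this
      linarith
    have hcast : ((n - j : ℕ) : ℝ) = (n : ℝ) - j := by
      rw [Nat.cast_sub (by omega)]
    refine ⟨by positivity, ?_, ?_⟩
    · rw [div_le_one hnj]
      have : c - j ≤ n - j := by omega
      exact_mod_cast this
    · have hjd : (j : ℝ) ≤ d := by exact_mod_cast hj.le
      have hcn : (c : ℝ) ≤ n := by exact_mod_cast hc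
      have hc0 : (0 : ℝ) ≤ c := Nat.cast_nonneg c
      have hj0 : (0 : ℝ) ≤ j := Nat.cast_nonneg j
      rcases Nat.lt_or_ge c j with h | h
      · have h0 : c - j = 0 := by omega
        rw [h0, Nat.cast_zero, zero_div, zero_sub, abs_neg, abs_of_nonneg (by positivity)]
        have : (c : ℝ) ≤ j := by exact_mod_cast h.le
        apply div_le_div_of_nonneg_right _ hn.le
        linarith
      · have hcc : ((c - j : ℕ) : ℝ) = (c : ℝ) - j := by rw [Nat.cast_sub h]
        rw [hcc]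
        have e : ((c : ℝ) - j) / ((n - j : ℕ) : ℝ) - (c : ℝ) / n
            = -((j : ℝ) * (n - c) / (((n - j : ℕ) : ℝ) * n)) := by
          rw [hcast] at hnj ⊢
          field_simp
          ring
        rw [e, abs_neg, abs_of_nonneg (by
          apply div_nonneg
          · exact mul_nonneg hj0 (by linarith)
          · positivity)]
        rw [div_le_div_iff₀ (by positivity) hn]
        have h1 : (j : ℝ) * (n - c) ≤ d * n := by
          apply mul_le_mul hjd (by linarith) (by linarith) (by positivity)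
        have h2 : (n : ℝ) ≤ 2 * ((n - j : ℕ) : ℝ) := by linarith
        calc (j : ℝ) * (n - c) * n ≤ d * n * n := mul_le_mul_of_nonneg_right h1 hn.le
          _ ≤ d * (2 * ((n - j : ℕ) : ℝ)) * n := by
              apply mul_le_mul_of_nonneg_right _ hn.le
              exact mul_le_mul_of_nonneg_left h2 (by positivity)
          _ = 2 * d * (((n - j : ℕ) : ℝ) * n) := by ring

theorem pow_sub_pow_le (x y : ℝ) (hx0 : 0 ≤ x) (hx1 : x ≤ 1) (hy0 : 0 ≤ y) (hy1 : y ≤ 1) (d : ℕ) :
    |x ^ d - y ^ d| ≤ d * |x - y| := by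
  have := prod_sub_pow y hy0 hy1 (fun _ => x) |x - y| d (fun j _ => ⟨hx0, hx1, le_rfl⟩)
  simpa using this

theorem one_step {n d : ℕ} (hd1 : 1 ≤ d) (hd : 2 * d ≤ n) (G Q : ℕ → ℕ → ℝ) (g0 e0 e1 : ℝ)
    (h : ∀ a b, a + b ≤ n → |G a b - g0| ≤ e0 + e1 * Q a b) (a b : ℕ) (hab : a + b ≤ n) :
    |X143.SD.Top n d G a b - g0| ≤ e0 + e1 * X143.SD.Top n d Q a b := by
  unfold X143.SD.Top
  set p := phi n d (n - a - b) with hp
  have p0 : 0 ≤ p := phi_nonneg _ _ _
  have p1 : p ≤ 1 := phi_le_one (by omega) (by omega)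
  set wa : ℝ := (a : ℝ) / (a + b) with hwa
  set wb : ℝ := (b : ℝ) / (a + b) with hwb
  have wa0 : 0 ≤ wa := by positivity
  have wb0 : 0 ≤ wb := by positivity
  have hsum : p + (1 - p) * (wa + wb) = 1 := by
    rcases Nat.eq_zero_or_pos (a + b) with h0 | h0
    · have ha : a = 0 := by omega
      have hb : b = 0 := by omega
      have : p = 1 := by rw [hp, ha, hb]; exact phi_self (by omega)
      rw [this]; ring
    · have : ((a : ℝ) + b) ≠ 0 := by
        have : (0 : ℝ) < (a : ℝ) + b := by exact_mod_cast h0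
        exact this.ne'
      have : wa + wb = 1 := by
        rw [hwa, hwb, ← add_div]; exact div_self this
      rw [this]; ring
  have hA : |wa * (G (a - 1) (b + 1) - g0)| ≤ wa * (e0 + e1 * Q (a - 1) (b + 1)) := by
    rw [abs_mul, abs_of_nonneg wa0]
    rcases Nat.eq_zero_or_pos a with h0 | h0
    · have : wa = 0 := by rw [hwa, h0]; simp
      rw [this]; simp
    · exact mul_le_mul_of_nonneg_left (h _ _ (by omega)) wa0
  have hB : |wb * (G a (b - 1) - g0)| ≤ wb * (e0 + e1 * Q a (b - 1)) := by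
    rw [abs_mul, abs_of_nonneg wb0]
    exact mul_le_mul_of_nonneg_left (h _ _ (by omega)) wb0
  have hP : |p * (G a b - g0)| ≤ p * (e0 + e1 * Q a b) := by
    rw [abs_mul, abs_of_nonneg p0]
    exact mul_le_mul_of_nonneg_left (h _ _ hab) p0
  have e : p * G a b + (1 - p) * (wa * G (a - 1) (b + 1) + wb * G a (b - 1)) - g0
      = p * (G a b - g0) + (1 - p) * (wa * (G (a - 1) (b + 1) - g0) + wb * (G a (b - 1) - g0)) := by
    linear_combination g0 * hsum
  rw [e]
  have hq : 0 ≤ 1 - p := by linarith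
  calc |p * (G a b - g0) + (1 - p) * (wa * (G (a - 1) (b + 1) - g0) + wb * (G a (b - 1) - g0))|
      ≤ |p * (G a b - g0)| + |(1 - p) * (wa * (G (a - 1) (b + 1) - g0) + wb * (G a (b - 1) - g0))| :=
        abs_add_le _ _
    _ ≤ p * (e0 + e1 * Q a b) + (1 - p) * (wa * (e0 + e1 * Q (a - 1) (b + 1)) +
          wb * (e0 + e1 * Q a (b - 1))) := by
        apply add_le_add hP
        rw [abs_mul, abs_of_nonneg hq]
        apply mul_le_mul_of_nonneg_left _ hq
        exact (abs_add_le _ _).trans (add_le_add hA hB)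
    _ = e0 + e1 * (p * Q a b + (1 - p) * (wa * Q (a - 1) (b + 1) + wb * Q a (b - 1))) := by
        linear_combination e0 * hsum

theorem iter_step {n d : ℕ} (hd1 : 1 ≤ d) (hd : 2 * d ≤ n) (G Q : ℕ → ℕ → ℝ) (g0 e0 e1 : ℝ)
    (h : ∀ a b, a + b ≤ n → |G a b - g0| ≤ e0 + e1 * Q a b) (i : ℕ) :
    ∀ a b : ℕ, a + b ≤ n → |It n d G i a b - g0| ≤ e0 + e1 * It n d Q i a b := by
  induction i with
  | zero => exact h
  | succ i ih =>
    intro a b hab
    exact one_step hd1 hd _ _ g0 e0 e1 ih a b hab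

theorem t_CON : S_ITR → S_CON := by
  intro hITR d K hd hK
  obtain ⟨C, hC, hC2⟩ := hITR d K hd hK
  refine ⟨2 * (d : ℝ) ^ 2 + d + d * C / 2, by positivity, ?_⟩
  intro n hn α β hS i hi
  have hit := hC2 n hn α β hS i hi
  obtain ⟨a0, b0, ab⟩ := hS.2.2.1 i hi
  have hnpos : 0 < n := by omega
  have hn0 : (0 : ℝ) < n := by exact_mod_cast hnpos
  have hn1 : (1 : ℝ) ≤ n := by exact_mod_cast hnpos
  set s : ℝ := Real.sqrt n with hs
  have s0 : 0 < s := Real.sqrt_pos.mpr hn0
  have s1 : 1 ≤ s := by rw [hs]; exact Real.one_le_sqrt.mpr hn1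
  have ss : s * s = n := Real.mul_self_sqrt hn0.le
  have hmain : ∀ a b : ℕ, a + b ≤ n →
      |(fun a b => 1 - phi n d (n - a - b)) a b - (1 - (1 - α i - β i) ^ d)| ≤
        (2 * (d : ℝ) ^ 2 + d) / s + (d * s / 2) *
          ((fun a b : ℕ => ((a : ℝ) / n - α i) ^ 2 + ((b : ℝ) / n - β i) ^ 2) a b) := by
    intro a b hab
    simp only
    set A : ℝ := (a : ℝ) / n - α i with hA
    set B : ℝ := (b : ℝ) / n - β i with hB
    have hcast : ((n - a - b : ℕ) : ℝ) / n = 1 - (a : ℝ) / n - (b : ℝ) / n := by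
      rw [Nat.sub_sub, Nat.cast_sub hab]
      push_cast
      field_simp
      ring
    have h1 := phi_pow (c := n - a - b) hd hn (by omega)
    have x0 : 0 ≤ ((n - a - b : ℕ) : ℝ) / n := by positivity
    have x1 : ((n - a - b : ℕ) : ℝ) / n ≤ 1 := by
      rw [div_le_one hn0]
      have : n - a - b ≤ n := by omega
      exact_mod_cast this
    have h2 := pow_sub_pow_le _ (1 - α i - β i) x0 x1 (by linarith) (by linarith) d
    have h3 : |((n - a - b : ℕ) : ℝ) / n - (1 - α i - β i)| ≤ |A| + |B| := by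
      rw [hcast]
      have : 1 - (a : ℝ) / n - (b : ℝ) / n - (1 - α i - β i) = -(A + B) := by
        rw [hA, hB]; ring
      rw [this, abs_neg]
      exact abs_add_le _ _
    have h4 : ∀ z : ℝ, |z| ≤ (s * z ^ 2 + 1 / s) / 2 := by
      intro z
      have e1 : s * z ^ 2 + 1 / s - 2 * |z| = (s * |z| - 1) ^ 2 / s := by
        rw [← sq_abs z]
        field_simp
        ring
      have e2 : 0 ≤ (s * |z| - 1) ^ 2 / s := by positivity
      linarith
    have hA4 := h4 A
    have hB4 := h4 B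
    have h5 : |1 - phi n d (n - a - b) - (1 - (1 - α i - β i) ^ d)| ≤
        d * (2 * d / n) + d * (|A| + |B|) := by
      have e : 1 - phi n d (n - a - b) - (1 - (1 - α i - β i) ^ d)
          = -((phi n d (n - a - b) - (((n - a - b : ℕ) : ℝ) / n) ^ d) +
            ((((n - a - b : ℕ) : ℝ) / n) ^ d - (1 - α i - β i) ^ d)) := by ring
      rw [e, abs_neg]
      refine (abs_add_le _ _).trans (add_le_add h1 (h2.trans ?_))
      exact mul_le_mul_of_nonneg_left h3 (Nat.cast_nonneg d)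
    have h6 : (d : ℝ) * (2 * d / n) ≤ 2 * (d : ℝ) ^ 2 / s := by
      have : (d : ℝ) * (2 * d / n) = 2 * (d : ℝ) ^ 2 / n := by ring
      rw [this]
      apply div_le_div_of_nonneg_left (by positivity) s0
      nlinarith
    have h7 : (d : ℝ) * (|A| + |B|) ≤ d * ((s * A ^ 2 + 1 / s) / 2 + (s * B ^ 2 + 1 / s) / 2) :=
      mul_le_mul_of_nonneg_left (add_le_add hA4 hB4) (Nat.cast_nonneg d)
    have h8 : (d : ℝ) * ((s * A ^ 2 + 1 / s) / 2 + (s * B ^ 2 + 1 / s) / 2)
        = d / s + (d * s / 2) * (A ^ 2 + B ^ 2) := by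
      field_simp
      ring
    have h9 : (2 * (d : ℝ) ^ 2 + d) / s = 2 * (d : ℝ) ^ 2 / s + d / s := by rw [add_div]
    linarith
  have hfin := iter_step hd hn _ _ _ _ _ hmain i n 0 (by omega)
  refine hfin.trans ?_
  have h10 : (d * s / 2) * It n d (fun a b : ℕ => ((a : ℝ) / n - α i) ^ 2 +
      ((b : ℝ) / n - β i) ^ 2) i n 0 ≤ (d * s / 2) * (C / n) :=
    mul_le_mul_of_nonneg_left hit (by positivity)
  have h11 : (d * s / 2) * (C / n) = (d * C / 2) / s := by
    rw [← ss]
    field_simp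
  have h12 : (2 * (d : ℝ) ^ 2 + d + d * C / 2) / s = (2 * (d : ℝ) ^ 2 + d) / s + (d * C / 2) / s := by
    rw [add_div]
  rw [h12, ← h11]
  linarith

end Pool.Agent.X56.SD
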